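import Pool.Agent.V8H79.BM.PK

/-!
# Curves with big monodromy have ordinary reductions over all large primes

Let `k` be a field of characteristic `0` and finite transcendence degree, and `X : y ^ m = ∏ (x - s l) ^ a l`
a cyclic covering of the line which is totally ramified over its branch points, `∞` and the `n + 1` points
`s l` (so `1 ≤ a l < m`, and the `a l` and `∑ a l` are prime to `m`; for `m = 2` these are the hyperelliptic
curves `y ^ 2 = ∏ (x - s l)` of genus `n / 2`). For `0 < j < m` the eigenspace `H_j` of `H¹_dR(X)` has the
dimension `n`; with `b l = j * a l % m` it is the space of the forms
`P(x) ∏ (x - s l) ^ (- b l / m) dx`, `deg P < n`, and the regular forms are those with `deg P < r`,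
`r = (∑ b l) / m` (`rk`). A derivation `δ` of `k` acts on `H_j` by the Gauss–Manin connection `∇` (`IsGM`: the
derivative of the form with `P = x ^ i` is the form with `P = ∑_j M i j x ^ j` plus the exact form
`d(Q ∏ (x - s l) ^ (- b l / m))`; `M` exists and is unique).

**Theorem.** Let `X_c` be finitely many such curves. Suppose that for each of their eigenspaces `H_j` with
`0 < r < n` there is a derivation `δ` of `k` such that the differential Galois group of `(H_j, ∇)` is big: its
Zariski closure contains a symplectic group `Sp_n` or the group `SL_n` (`Big`). Or more generally that `H_j` is
in general position (`GP`): over no differential extension field of `k` a flat subspace of dimension at most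
`n - r` contains a nonzero regular form. Let `A ⊂ k` be a finitely generated ring over which the curves are
defined, and `g ≠ 0` in `A`. Then for **all large primes** `p` which are `1` modulo the degrees `m c` there is
a closed point of `Spec A` of characteristic `p` with `g ≠ 0` at which all blocks of the Hasse–Witt matrices
of all the curves are invertible.

For `g` divisible by the `m c` and the discriminants the reductions are smooth curves, the blocks are
the matrices of the Cartier operator on the eigenspaces of the regular forms, and so the curve is
ordinary if and only if the blocks are invertible; products of ordinary varieties are ordinary. So the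
closed points at which the product of the curves `X_c` has ordinary reduction are dense in `Spec A`
(over every large `p ≡ 1`). In particular: if the monodromy of a family of hyperelliptic curves of any genus
over a base of any dimension (for example over a curve), defined over a finitely generated field, is
Zariski dense in the symplectic group, then the generic curve of the family and its powers have
dense ordinary reduction, over every large prime. (For a family over a variety over `ℂ` the connection
has regular singularities, so the differential Galois group is the Zariski closure of the monodromy
group.) For example every hyperelliptic curve of odd genus `g` over `k` which cannot be defined over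
`ℚ̄` and whose Jacobian has the endomorphism ring `ℤ` (over `k` algebraically closed): then the
Mumford–Tate group is `GSp_2g`, and the monodromy group is Zariski dense in `Sp_2g` by a theorem of André.

Proof. (`PA`) Let `K` be the residue field of a prime over `p` of a finitely generated differential ring. The
exact forms are a flat subspace `C ⊂ H_j ⊗ K` of dimension `n - r` (the conjugate filtration), and if the
Hasse–Witt determinant is zero then `C` contains a nonzero regular form. (`PG`) If this happens for
infinitely many `p`, then in an ultraproduct of the fields `K`, a differential extension field of
`k`, there is a flat subspace `C` of dimension at most `n - r` which contains a nonzero regular form. (`PB`,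
`PC`, `PE`, `PF`) Enlarge the field so that it contains a fundamental matrix; then `C` is generated by constant
vectors, and its translates by the differential Galois group, so also its translates by `Sp_n` or
`SL_n` and by transvections, contain regular forms. (`PD`) By transvections every subspace of
dimension `≤ n - r` can be moved to a position in which it does not meet a given subspace of
dimension `r`. (`PH`, `PI`) `k` is the union of finitely generated differential rings `B`, and for all
large `p` a minimal prime of `B` over `p` is differential, as the extension of `B` over a polynomial ring
is generically separable with bounded degree `< p`. (`PJ`, `PK`) So the determinants are not in the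
chosen primes for all large `p`, and `A` is a Jacobson ring.
-/

set_option autoImplicit false

open Polynomial

namespace Pool.Agent.Results.MP_adc574_ag.BigMonodromy

open Pool.Agent.V8H79.BM

/-- the dimension of the eigenspace `j` of the space of the regular forms -/
def rk (m j : ℕ) {N : ℕ} (a : Fin N → ℕ) : ℕ := (∑ l, j * a l % m) / m

/-- Cyclic covers of the line with big monodromy: the Hasse–Witt matrices are invertible at closed
points over all large primes `p ≡ 1` modulo the degrees. -/
theorem result {k ι : Type} [Field k] [CharZero k] [FinTrdeg ℚ k] [Fintype ι]
    -- finitely many curves `y ^ m = ∏ (x - s l) ^ a l`
    (m n : ι → ℕ) (s : ∀ c, Fin (n c + 1) → k) (hs : ∀ c, Function.Injective (s c))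
    (a : ∀ c, Fin (n c + 1) → ℕ) (ha : ∀ c l, a c l < m c)
    -- the differential Galois group of each eigenspace is big, or it is in general position
    (hbig : ∀ c j, 1 ≤ j → j < m c → 0 < rk (m c) j (a c) → rk (m c) j (a c) < n c →
      ∃ (δ : Derivation ℤ k k) (M : Matrix (Fin (n c)) (Fin (n c)) k),
        IsGM δ (m c) (s c) (fun l => j * a c l % m c) M ∧
        (Big δ M ∨ GP δ M (rk (m c) j (a c))))
    -- a finitely generated ring over which the curves are defined, a nonempty open set
    (A : Subalgebra ℤ k) (hA : A.FG) (F : ι → ℕ → A[X])
    (hF : ∀ c e, (F c e).map (algebraMap A k) = ∏ l with a c l = e, (X - C (s c l)))
    (g : A) (hg : g ≠ 0) :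
    ∃ N : ℕ, ∀ p : ℕ, N ≤ p → p.Prime → (∀ c, m c ∣ p - 1) → ∃ M : Ideal A, M.IsMaximal ∧
      (p : A) ∈ M ∧ g ∉ M ∧ ∀ c, ∀ j, 1 ≤ j → j < m c →
        (hw p (rk (m c) j (a c)) (∏ e ∈ Finset.range (m c),
          (F c e).map (Ideal.Quotient.mk M) ^ ((j * e % m c) * ((p - 1) / m c)))).det ≠ 0 :=
  main m n s hs a ha hbig A hA F hF g hg

end Pool.Agent.Results.MP_adc574_ag.BigMonodromy
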