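import Pool.Agent.V8H79.KS.PF

/-!
# The rank and the stable rank of Frobenius in terms of the number of moduli

Let `k` be a field of characteristic `0` (for example an algebraically closed one) and
`X : y ^ m = ∏ (x - s l) ^ a l`, `l = 0, …, n`, `0 ≤ a l < m`, a cyclic covering of the line; for `m = 2`, `a l = 1`,
`n = 2 g` this is a hyperelliptic curve of genus `g`. The moduli of the branch points `∞, s 0, …, s n` are
the ratios `(s l - s 0) / (s n - s 0)`; let `t` (`moduliDeg`) be the transcendence degree over `ℚ` of the
ring which they generate, so that `0 ≤ t ≤ n - 1` for `n ≥ 1` (for a hyperelliptic curve `t` is the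
transcendence degree of the field of moduli). For `0 < j < m` and `b l = j * a l % m` the eigenspace of
`H⁰(X, Ω¹)` of the forms `P(x) ∏ (x - s l) ^ (- b l / m) dx`, `deg P < r`, has the dimension
`r = (∑ b l) / m` (`rk`), if `∞` and the `s l` are total branch points; the eigenspace of `H¹_dR(X)` has the
dimension `n`.

**Theorem.** Let `X_c` be finitely many such curves over `k`, `A ⊂ k` a finitely generated ring over which they
are defined, and `g ≠ 0` in `A`. For **all large primes** `p` which are `1` modulo the degrees `m c`
there is a closed point of `Spec A` of characteristic `p` with `g ≠ 0` at which for all the curves `X_c`, all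
`0 < j < m c` and all `i` the rank of the `i`-th iterate of the Cartier operator (dual to Frobenius on
`H¹(X, O)`) on the eigenspace with number `j`, that is of the matrix `H ^ (p ^ (i - 1)) ⋯ H ^ (p) H` where `H` is
the block of the Hasse–Witt matrix (`it`), is at least

  `r - (1 - 2 ^ (-i)) (n - t)`.

So for `i = 1` the rank of the Hasse–Witt block is at least `r - (n - t) / 2`, in other words the
`a`-number is at most `(n - t) / 2`; and for large `i` the stable rank (the `p`-rank) is at least
`r - (n - t) + 1` (if `n ≥ 1`). For a hyperelliptic curve of genus `g` whose field of moduli has transcendence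
degree `t` there are dense closed points, over every large prime, with
`rank (Frobenius on H¹(X, O)) ≥ t / 2` and `p`-rank `≥ t - g + 1`; the curve is ordinary if `t = 2 g - 1`.
There is no hypothesis about monodromy.

Proof. Let `K` be the residue field of a prime over `p` of a finitely generated ring `B` which is stable under
derivations `δ_1, …, δ_t` with `δ_i λ_j = δ_ij` for `t` independent ratios `λ_j`; the prime can be chosen
stable (`BM/PI`, for all large `p`). The Cartier operator `C` is horizontal, so the kernels `W` of
`C ^ i` on the eigenspace `H` of `H¹_dR ⊗ K` are flat (`KS/PC`). Let `F ⊂ H` be the space of the regular forms,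
`N = W ∩ F` and `Ψ` the space of the functionals on `H` which vanish on `W + F`. So `ψ(∇_δ ω) = 0` for `ω ∈ N`,
`ψ ∈ Ψ`, and `ψ(∇_δ ω)` is the Kodaira–Spencer pairing: for `ω = P ∏ (x - s l) ^ (- b l / m) dx` it is
`- ∑ δ(s l) P(s l) T l` with a vector `T ∈ K ^ (n + 1)` depending injectively on `ψ`, whose moments
`∑ T l (s l) ^ q` vanish for `q ≤ r` (`KS/PB`). So all the vectors `P(s l) T l` are orthogonal to the `t + 2`
independent vectors `1, s, δ_i s`. The degrees of the polynomials `P` are at least `dim N` different
numbers, the orders of the first nonvanishing moments of the vectors `T` are at least `dim Ψ` different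
numbers, and the difference of the two numbers is the order of the product, so the products span a
space of dimension at least `dim N + dim Ψ - 1` (Hopf's argument, `KS/PA`). Hence
`dim N + dim Ψ + t ≤ n` if both are positive. If `a_i = r - ρ_i` is the dimension of the kernel of `C ^ i` on `F`
then `dim N = a_i` and `dim Ψ ≥ a_i - a_(i - 1)`, so `2 a_i - a_(i - 1) ≤ n - t` or `a_i = a_(i - 1)`. Finally the
ranks at the prime of `A` are ranks at closed points, as `A` is a Jacobson ring (`KS/PE`).
-/

set_option autoImplicit false

open Polynomial

namespace Pool.Agent.Results.MP_adc574_ag.FrobeniusRankAndModuli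

open Pool.Agent.V8H79.BM Pool.Agent.V8H79.KS

/-- the dimension of the eigenspace `j` of the space of the regular forms -/
def rk (m j : ℕ) {N : ℕ} (a : Fin N → ℕ) : ℕ := (∑ l, j * a l % m) / m

/-- Cyclic covers of the line with `t` moduli: at dense closed points over all large `p ≡ 1` the
rank of the `i`-th iterate of the Hasse–Witt block is at least `r - (1 - 2 ^ (-i)) (n - t)`. -/
theorem result {k ι : Type} [Field k] [CharZero k] [Fintype ι]
    -- finitely many curves `y ^ m = ∏ (x - s l) ^ a l`
    (m n : ι → ℕ) (s : ∀ c, Fin (n c + 1) → k) (hs : ∀ c, Function.Injective (s c))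
    (a : ∀ c, Fin (n c + 1) → ℕ) (ha : ∀ c l, a c l < m c)
    -- a finitely generated ring over which the curves are defined, a nonempty open set
    (A : Subalgebra ℤ k) (hA : A.FG) (F : ι → ℕ → A[X])
    (hF : ∀ c e, (F c e).map (algebraMap A k) = ∏ l with a c l = e, (X - C (s c l)))
    (g : A) (hg : g ≠ 0) :
    ∃ N : ℕ, ∀ p : ℕ, N ≤ p → p.Prime → (∀ c, m c ∣ p - 1) → ∃ M : Ideal A, M.IsMaximal ∧
      (p : A) ∈ M ∧ g ∉ M ∧ ∀ c, ∀ j, 1 ≤ j → j < m c → ∀ i,
        2 ^ i * rk (m c) j (a c) + (2 ^ i - 1) * moduliDeg (s c) ≤
          2 ^ i * (it p (hw p (rk (m c) j (a c)) (∏ e ∈ Finset.range (m c),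
            (F c e).map (Ideal.Quotient.mk M) ^ ((j * e % m c) * ((p - 1) / m c)))) i).rank +
            (2 ^ i - 1) * n c :=
  main2 m n s hs a ha A hA F hF g hg

end Pool.Agent.Results.MP_adc574_ag.FrobeniusRankAndModuli
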