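import Pool.Agent.V8H79.HY.Stm

/-!
# Surfaces and hypersurfaces with big monodromy have ordinary reductions over all large primes

Let `k` be a field of characteristic `0` and finite transcendence degree and `X ⊂ ℙ^N` the smooth
hypersurface `f = 0` of degree `d` over `k`. More generally let `X ⊂ P` be an ample quasi-smooth
hypersurface of a complete simplicial toric variety, for example of `ℙ^a × ℙ^b` or of a weighted projective
space: `f` is homogeneous of degree `γ` for weights `w l` in an abelian group `Γ`, the class group of `P` (Cox
ring `k[x_l]`). With `Γ = Cl(P) × μ`, `μ` finite, `X` has an action of the finite diagonal group dual to `μ`,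
for example a cyclic covering of `ℙ^(N-1)`, and `χ ∈ μ` is a character. By Griffiths (Steenbrink,
Batyrev and Cox) the forms `P Ω / f ^ s` with weight `s γ + χ`, modulo exact forms, give the eigenspace
`H_χ` of `H^N(P - X)` (for `P = ℙ^N`, `χ = 0`: the primitive cohomology `H^(N-1)(X)`), the forms with `s = 1`,
`x ^ v Ω / (f ∏ x_l)` with `v b` (`b < r`) the positive exponents of weight `γ + χ`, are a basis of the
last step of the Hodge filtration, `P` is in the Jacobian ideal if `s ≥ N + 1`, and so it is enough to
consider forms with a pole of a fixed order `S ≥ N`. Let `e_i Ω / f ^ S`, `i < n`, be a basis of `H_χ` (or a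
system of generators) which starts with these forms (`Hyp`, `Hyp.IsSystem`). The Gauss–Manin
connection of a derivation `δ` of `k` has the matrix `M` (`IsGM`).

**Theorem.** Let `X_c` be finitely many such hypersurfaces with characters. Suppose that for each `c` with
`0 < r < n` there is a derivation `δ` of `k` such that the differential Galois group of `(H_χ, ∇)` is big: its
Zariski closure contains a symplectic group `Sp_n`, a special orthogonal group `SO_n` (and `n ≠ 2 r`) or
the group `SL_n` (`Big3`). Or more generally that it is in general position (`GP`): over no
differential extension field of `k` a flat subspace of dimension at most `n - r` contains a nonzero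
combination of the first `r` forms. Let `A ⊂ k` be a finitely generated ring over which the `f_c` are
defined, and `g ≠ 0` in `A`. Then for **all large primes** `p` (with `p ≡ 1` modulo the exponents `t` of the
torsion of `Γ`, no condition if `Γ` is torsion-free, `t = 1`) there is a closed point of `Spec A` of
characteristic `p` with `g ≠ 0` at which all the Hasse–Witt matrices (the matrices of the Frobenius on
`H^(N-1)(X, 𝒪)_χ`, transposed) are invertible.

For a smooth curve (`N = 2`) the Hasse–Witt matrix is invertible if and only if the curve is
ordinary. For a smooth surface `X ⊂ P` (`N = 3`, then `H^1(X, 𝒪) = 0`) it is invertible if and only if `X` is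
ordinary in the sense of Bloch and Kato: the sequence `0 → 𝒪 → F_* 𝒪 → BΩ^1 → 0` shows that the cohomology
of `BΩ^1` is zero if and only if the Frobenius is bijective on all `H^i(X, 𝒪)`, and `BΩ^2` is dual to
`BΩ^1`. Products of ordinary varieties are ordinary. So for smooth ample curves and surfaces `X ⊂ P`, for
example smooth plane curves and smooth surfaces in `ℙ^3` of any degree, with big monodromy, and for
their products, the closed points with ordinary reduction are dense. For example for the generic
member of a Lefschetz pencil of surfaces of degree `≥ 4` in `ℙ^3`, over `ℚ(t)`: its monodromy group is Zariski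
dense in the orthogonal group. Or for plane curves of odd genus `g` which cannot be defined
over `ℚ̄` and whose Jacobian has the endomorphism ring `ℤ`: then the Mumford–Tate group is `GSp_2g`, and the
monodromy group is Zariski dense in `Sp_2g`, by a theorem of André.

Proof. (`HY.PA`) Let `K` be the residue field of a prime over `p` of a finitely generated differential ring.
`P Ω / f ^ S = P f ^ (p - S) Ω / f ^ p` is exact if and only if `P f ^ (p - S)` has no monomials
`x ^ (p u) / ∏ x_l`. The exact forms are a flat subspace `C` of `H_χ ⊗ K`. The forms
`x ^ (p v) Ω / (f ^ p ∏ x_l)` have a pole of order `p`, which by Griffiths' reduction, dividing only by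
`S, …, p - 1`, is equivalent to one of order `S`. So `C` has codimension at least `r`. If the Hasse–Witt
determinant is zero then `C` contains a nonzero combination of the first `r` forms. (`BM.PG`) If this
happens for infinitely many `p`, then in an ultraproduct of the fields `K` there is a flat subspace of
dimension at most `n - r` with such an element. (`BM.PF`) Its translates by the differential Galois
group, so by `Sp_n`, `SO_n` or `SL_n`, have the same property. (`BM.PD`, `HY.Orth`) But by transvections or
reflections every subspace of dimension `n - r` can be moved to a position in which it does not meet a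
given subspace of dimension `r`. (`BM.PI`, `HY.PC`, `HY.PD`) Differential primes exist over all large `p`,
the Jacobian ideal can be controlled by Dickson's lemma, and `A` is a Jacobson ring. The hand-in
`BigMonodromy` is the case of totally ramified cyclic coverings of the line, which are in general not
quasi-smooth hypersurfaces.
-/

set_option autoImplicit false

open MvPolynomial

namespace Pool.Agent.Results.MP_adc574_ag.HypersurfacesBigMonodromy

open Pool.Agent.V8H79.HY

/-- (Weighted) hypersurfaces, with characters of diagonal symmetries, with big monodromy: the
Hasse–Witt matrices are invertible at closed points over all large primes. -/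
theorem result {k ι : Type} [Field k] [CharZero k] [FinTrdeg ℚ k] [Fintype ι]
    -- finitely many hypersurfaces with characters and systems of forms
    (X : ι → Hyp k) (hX : ∀ c, (X c).IsSystem)
    -- the differential Galois groups are big, or general position
    (hbig : ∀ c, (X c).IsBig)
    -- a finitely generated ring over which the hypersurfaces are defined, a nonempty open set
    (A : Subalgebra ℤ k) (hA : A.FG) (F : ∀ c, MvPolynomial (X c).σ A)
    (hF : ∀ c, map (algebraMap A k) (F c) = (X c).f) (g : A) (hg : g ≠ 0) :
    ∃ N : ℕ, ∀ p : ℕ, N ≤ p → p.Prime → (∀ c, (X c).t ∣ p - 1) → ∃ M : Ideal A, M.IsMaximal ∧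
      (p : A) ∈ M ∧ g ∉ M ∧
        ∀ c, (hwm p (X c).v (map (Ideal.Quotient.mk M) (F c))).det ≠ 0 :=
  main' X hX hbig A hA F hF g hg

end Pool.Agent.Results.MP_adc574_ag.HypersurfacesBigMonodromy
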