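import Pool.Agent.V8H79.TR.PH

/-!
# Ordinary reduction and tropical degenerations

Let `K` be a field and `O ⊂ K` a valuation ring (of any rank) with residue field `κ` of characteristic `0`.
Let `X ⊂ ℙ^n`, or `X` in another complete simplicial toric variety, be the (quasi-smooth, ample) complete
intersection `f_1 = ⋯ = f_c = 0`, `f_j = ∑_u a_(j,u) x^u ∈ K[x]` in homogeneous coordinates. Let `v_a` be the
exponents without zeros whose degree is the sum of the degrees of the `f_j` (the interior lattice points of
the sum of the Newton polytopes). In characteristic `p` the matrix `hws` of the coefficients of `x^(p v_a - v_b)`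
in `(f_1 ⋯ f_c)^(p-1)` is the (transposed) matrix of the Frobenius on `H^(dim X)(X, 𝒪)`, the Hasse–Witt matrix.
The valuations of the coefficients define a (mixed) subdivision of the Newton polytopes in cells. For a cell `i`
there are, if the value group is large enough, a torus element `y_i` and scalars `τ_(i,j)` such that
`F_(i,j) = τ_(i,j)⁻¹ f_j(y_i⁻¹ x)` has coefficients in `O`, the exponents of the initial forms, the
reductions of the `F_(i,j)` to `κ`, are the vertices and the other lattice points of the cell with minimal
valuations. (`Deg`, `Deg.IsDeg`: every exponent `v_a` is in the relative interior of its cell `cell a`.)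

**Theorem.** (1) Let `D` be a set of cells. Suppose that the initial forms `Deg.init` of the cells in `D` (with
the exponents in their interiors) have ordinary reduction (invertible Hasse–Witt matrices) simultaneously at
closed points over all large primes in a set `P`, which are dense: for all finitely generated rings `B ⊂ κ` and
`h ≠ 0` in `B` there are such closed points of `Spec B` outside `h = 0`. Suppose that the other cells which
contain exponents in their interiors are simplices (`Simplicial`). Then the `X_c` have ordinary reduction:
for all finitely generated rings `A ⊂ K` over which the equations are defined, `g ≠ 0` in `A` and all large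
primes `p ∈ P`, with `p ≡ 1 mod N` if there are exponents in cells which are not in `D`, there is a closed point
of `Spec A` over `p` with `g ≠ 0` at which all the Hasse–Witt matrices are invertible. Here `N` is a common
denominator of the barycentric coordinates of the exponents in their cells.

(2) In particular, if the cells of all exponents are simplices, which is the case if the valuations of the
coefficients are in general position, this is true for all large `p ≡ 1 mod N`.

(3) For example for `f = ∑ a_u t^(∑ u_l^2) x^u` with `t` of positive valuation, `a_u ∈ O` and units `a_(v_a)`, all
exponents `v_a` are vertices of the subdivision, and the statement is true for all large primes. For instance if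
`k` is a number field and `a_u ∈ k` are arbitrary with `a_u ≠ 0` for the exponents `u = v_a`, this is the case for
`f` over `k(t)`.

For curves (`dim X = 1`) the Hasse–Witt matrix is invertible if and only if the curve is ordinary, and for
surfaces (`dim X = 2`, then `H^1(X, 𝒪) = 0`) if and only if `X` is ordinary in the sense of Bloch and Kato (as
`BΩ^2` is dual to `BΩ^1`, and the cohomology of `BΩ^1` vanishes if and only if the Frobenius is bijective on
`H^i(X, 𝒪)` for all `i`). So for curves and surfaces this is the density of closed points with ordinary reduction.

Proof. Let `ω_i(u)` be the affine function `∏_j τ_(i,j) y_i^u` of the cell `i`. If `v_b` is in the interior of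
the cell `i'`, then `ω_(i')(v_b) / ω_i(v_b) ∈ O`, and it is a unit only if the cell `i'` is contained in the cell `i`
(`PD.exists_rho`). So the Hasse–Witt matrix of `(f_j)`, divided by `ω(v_a)^p` and multiplied by `ω(v_b)`, has
coefficients in `O`, and modulo the maximal ideal it is block triangular, the blocks are the Hasse–Witt
matrices of the initial forms (`PE`). A finitely generated subring `B` of `O` which contains for all the
elements in question or their inverses, and a prime `n` of `B` over `p` at which the initial forms are
ordinary, contain a smaller prime `q` over `p` at which the Hasse–Witt determinant and `g` are not zero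
(`PA.exists_below`: `p` is a nonzerodivisor modulo `h` for almost all `p`). For simplices and `p ≡ 1 mod N` the
Hasse–Witt matrix is diagonal with multinomial coefficients `≢ 0 mod p` (`PF`).
-/

set_option autoImplicit false

open MvPolynomial

namespace Pool.Agent.Results.MP_adc574_ag.TropicalDegenerations

open Pool.Agent.V8H79.TR

/-- Complete intersections whose initial forms at a valuation are ordinary are ordinary; complete
intersections with simplicial cells are ordinary. -/
theorem result {K ι : Type} [Field K] [Fintype ι] (O : ValuationSubring K)
    [CharZero (IsLocalRing.ResidueField O)] :
    -- degenerations of finitely many complete intersections, with cells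
    (∀ (X : ι → Deg K O) (N : ℕ), 0 < N → (∀ c, (X c).IsDeg N) →
      -- (1) the initial forms of some cells are ordinary, the other cells are simplices
      (∀ (P : Set ℕ) (D : Set (Σ c, Fin (X c).m)),
        DenseOrd P (fun s : D => (X s.1.1).init s.1.2) →
        (∀ c a, (⟨c, (X c).cell a⟩ : Σ c, Fin (X c).m) ∉ D →
          Simplicial ((X c).supp ((X c).cell a))) →
        DenseOrd {p | p ∈ P ∧ ((∃ c a, (⟨c, (X c).cell a⟩ : Σ c, Fin (X c).m) ∉ D) → N ∣ p - 1)}
          fun c => (X c).toCI) ∧
      -- (2) all cells are simplices
      ((∀ c a, Simplicial ((X c).supp ((X c).cell a))) →
        DenseOrd {p | N ∣ p - 1} fun c => (X c).toCI)) ∧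
    -- (3) strictly convex exponents of a parameter of positive valuation
    ∀ (σ α : Type) [Fintype σ] [Fintype α] [DecidableEq α] (t : O), t ≠ 0 →
      IsLocalRing.residue O t = 0 → ∀ (v : α → σ →₀ ℕ), Function.Injective v →
      ∀ (a : (σ →₀ ℕ) → O), (∀ b, IsLocalRing.residue O (a (v b)) ≠ 0) →
      ∀ f : MvPolynomial σ K, (∀ u, coeff u f = (t : K) ^ (∑ l, u l ^ 2) * a u) →
      DenseOrd Set.univ
        fun _ : Unit => (⟨σ, α, inferInstance, inferInstance, 1, fun _ => f, v⟩ : CI K) :=
  ⟨fun X N hN hX => ⟨fun P D hD hs => main2 X N hN hX P D hD hs, fun hs => main3 X N hN hX hs⟩,
    fun _ _ _ _ _ t ht0 ht v hv a ha f hf => quad_main t ht0 ht v hv a ha f hf⟩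

end Pool.Agent.Results.MP_adc574_ag.TropicalDegenerations
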